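import Mathlib

/-!
Four inverses of differences of integers in arithmetic progression, in a field of characteristic zero.
-/

set_option autoImplicit false

namespace Pool.Agent.Zk26.GT

theorem prog_cast {K k₁ : Type} [Field k₁] [CharZero k₁] {e : K → ℤ}
    (h : ∀ i, ∃ (l : Fin 4 → K) (z δ : ℚ), δ ≠ 0 ∧ (∀ j, l j ≠ i) ∧
      ∀ j : Fin 4, ((e (l j) : ℚ) - e i)⁻¹ = z + (j : ℕ) * δ) :
    ∀ i, ∃ (l : Fin 4 → K) (z δ : k₁), δ ≠ 0 ∧ (∀ j, l j ≠ i) ∧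
      ∀ j : Fin 4, ((e (l j) : k₁) - e i)⁻¹ = z + (j : ℕ) * δ := by
  intro i
  obtain ⟨l, z, δ, hδ, hl, h1⟩ := h i
  refine ⟨l, (z : k₁), (δ : k₁), by exact_mod_cast hδ, hl, fun j => ?_⟩
  have h2 : ((((e (l j) : ℚ) - e i)⁻¹ : ℚ) : k₁) = ((z + (j : ℕ) * δ : ℚ) : k₁) := by rw [h1 j]
  push_cast at h2
  exact h2

theorem cast_inj {K k₁ : Type} [Field k₁] [CharZero k₁] {e : K → ℤ} (he : Function.Injective e) :
    Function.Injective fun i => (e i : k₁) := fun _ _ h => he (Int.cast_injective h)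

end Pool.Agent.Zk26.GT
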