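import Mathlib

/-!
An irreducible polynomial `D` of odd degree: `k₁[X] / (D)` contains no quadratic extension of `k₁`.
-/

set_option autoImplicit false

namespace Pool.Agent.Zk26.GT

open Polynomial

theorem odd_noQuadratic {k₁ : Type} [Field k₁] {D : k₁[X]} (hD : Irreducible D)
    (hodd : Odd D.natDegree) : ∀ c : k₁, IsSquare (algebraMap k₁ (AdjoinRoot D) c) → IsSquare c := by
  rintro c ⟨z, hz⟩
  have : Fact (Irreducible D) := ⟨hD⟩
  have hfin : FiniteDimensional k₁ (AdjoinRoot D) := (AdjoinRoot.powerBasis hD.ne_zero).finite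
  have hrank : Module.finrank k₁ (AdjoinRoot D) = D.natDegree := by
    rw [(AdjoinRoot.powerBasis hD.ne_zero).finrank, AdjoinRoot.powerBasis_dim]
  have hint : IsIntegral k₁ z := IsIntegral.of_finite k₁ z
  have h1 : (minpoly k₁ z).natDegree ∣ D.natDegree := by
    rw [← hrank]
    exact minpoly.degree_dvd hint
  have h2 : minpoly k₁ z ∣ (X ^ 2 - C c : k₁[X]) := by
    apply minpoly.dvd
    rw [map_sub, map_pow, aeval_X, aeval_C, hz]
    ring
  have h3 : (minpoly k₁ z).natDegree ≤ 2 := by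
    have h4 := natDegree_le_of_dvd h2 (X_pow_sub_C_ne_zero two_pos c)
    rwa [natDegree_X_pow_sub_C] at h4
  have h5 : 0 < (minpoly k₁ z).natDegree := minpoly.natDegree_pos hint
  have h6 : (minpoly k₁ z).natDegree ≠ 2 := by
    intro h7
    rw [h7] at h1
    exact (Nat.not_even_iff_odd.2 hodd) (even_iff_two_dvd.2 h1)
  have h8 : (minpoly k₁ z).natDegree = 1 := by omega
  obtain ⟨w, hw⟩ := (minpoly.natDegree_eq_one_iff).1 h8
  refine ⟨w, (algebraMap k₁ (AdjoinRoot D)).injective ?_⟩
  rw [hz, ← hw, map_mul]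

end Pool.Agent.Zk26.GT
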