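import Mathlib

/-!
Square classes of polynomials and conics over `k₁(X)` (module S_POL of project GT, helper12), part A:
statements over the polynomial ring.
-/

set_option autoImplicit false

namespace Pool.Agent.Zk26.GT

open Polynomial

variable {k₁ : Type} [Field k₁]

/-- squarefree part -/
lemma sqf : ∀ (n : ℕ) (P : k₁[X]), P.natDegree = n → P ≠ 0 →
    ∃ S r : k₁[X], Squarefree S ∧ S ≠ 0 ∧ r ≠ 0 ∧ P = S * r ^ 2 := by
  intro n
  induction n using Nat.strong_induction_on with
  | _ n ih =>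
    intro P hn hP
    by_cases hs : Squarefree P
    · exact ⟨P, 1, hs, hP, one_ne_zero, by ring⟩
    · unfold Squarefree at hs
      push Not at hs
      obtain ⟨x, ⟨Q, hQ⟩, hx⟩ := hs
      have hx0 : x ≠ 0 := by
        rintro rfl
        simp at hQ
        exact hP hQ
      have hQ0 : Q ≠ 0 := by
        rintro rfl
        simp at hQ
        exact hP hQ
      have hd : 0 < x.natDegree := by
        rw [natDegree_pos_iff_degree_pos]
        exact degree_pos_of_ne_zero_of_nonunit hx0 hx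
      have hlt : Q.natDegree < n := by
        rw [← hn, hQ, natDegree_mul (mul_ne_zero hx0 hx0) hQ0, natDegree_mul hx0 hx0]
        omega
      obtain ⟨S, r, hS, hS0, hr, hSr⟩ := ih _ hlt Q rfl hQ0
      exact ⟨S, r * x, hS, hS0, mul_ne_zero hr hx0, by rw [hQ, hSr]; ring⟩

lemma natDegree_le_mul {π U : k₁[X]} (hπ : π ≠ 0) : U.natDegree ≤ (π * U).natDegree := by
  by_cases h : U = 0
  · rw [h, mul_zero]
  · rw [natDegree_mul hπ h]
    omega

lemma natDegree_lt_mul {π U : k₁[X]} (hπ : Irreducible π) (h : U ≠ 0) :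
    U.natDegree < (π * U).natDegree := by
  rw [natDegree_mul hπ.ne_zero h]
  have : 0 < π.natDegree := hπ.natDegree_pos
  omega

/-- the residue lemma -/
lemma residue {κ : Type} [Field κ] (φ : k₁[X] →+* κ) {π : k₁[X]} (hπ : Irreducible π)
    (hφ : ∀ P, φ P = 0 ↔ π ∣ P) {A' B : k₁[X]} {δ : k₁} (hδ : δ ≠ 0) (hA : ¬ π ∣ A')
    (hB : ¬ π ∣ B) : ∀ (n : ℕ) (U V W : k₁[X]), U.natDegree + V.natDegree + W.natDegree = n →
    (U ≠ 0 ∨ V ≠ 0 ∨ W ≠ 0) → C δ * U ^ 2 = π * A' * V ^ 2 - B * W ^ 2 →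
    IsSquare (φ (C (-δ)) * φ B) := by
  have hp : Prime π := hπ.prime
  have hπ0 : π ≠ 0 := hπ.ne_zero
  have hCδ : ¬ π ∣ C δ := by
    intro h
    exact hπ.not_isUnit (isUnit_of_dvd_unit h (isUnit_C.2 (isUnit_iff_ne_zero.2 hδ)))
  intro n
  induction n using Nat.strong_induction_on with
  | _ n ih =>
    intro U V W hn h0 h
    by_cases hW : π ∣ W
    · obtain ⟨W₁, rfl⟩ := hW
      have hU : π ∣ U := by
        have h1 : π ∣ C δ * U ^ 2 := by
          rw [h]
          exact ⟨A' * V ^ 2 - B * (π * W₁ ^ 2), by ring⟩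
        rcases hp.dvd_or_dvd h1 with h2 | h2
        · exact absurd h2 hCδ
        · exact hp.dvd_of_dvd_pow h2
      obtain ⟨U₁, rfl⟩ := hU
      have hV : π ∣ V := by
        have h1 : A' * V ^ 2 = π * (C δ * U₁ ^ 2 + B * W₁ ^ 2) := by
          apply mul_left_cancel₀ hπ0
          linear_combination -h
        have h2 : π ∣ A' * V ^ 2 := ⟨_, h1⟩
        rcases hp.dvd_or_dvd h2 with h3 | h3
        · exact absurd h3 hA
        · exact hp.dvd_of_dvd_pow h3
      obtain ⟨V₁, rfl⟩ := hV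
      have h1 : C δ * U₁ ^ 2 = π * A' * V₁ ^ 2 - B * W₁ ^ 2 := by
        apply mul_left_cancel₀ (pow_ne_zero 2 hπ0)
        linear_combination h
      have h01 : U₁ ≠ 0 ∨ V₁ ≠ 0 ∨ W₁ ≠ 0 := by
        rcases h0 with h2 | h2 | h2
        · exact Or.inl (right_ne_zero_of_mul h2)
        · exact Or.inr (Or.inl (right_ne_zero_of_mul h2))
        · exact Or.inr (Or.inr (right_ne_zero_of_mul h2))
      have hlt : U₁.natDegree + V₁.natDegree + W₁.natDegree < n := by
        rw [← hn]
        have a1 := natDegree_le_mul (U := U₁) hπ0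
        have a2 := natDegree_le_mul (U := V₁) hπ0
        have a3 := natDegree_le_mul (U := W₁) hπ0
        rcases h01 with h2 | h2 | h2
        · have := natDegree_lt_mul hπ h2
          omega
        · have := natDegree_lt_mul hπ h2
          omega
        · have := natDegree_lt_mul hπ h2
          omega
      exact ih _ hlt U₁ V₁ W₁ rfl h01 h1
    · have hW0 : φ W ≠ 0 := fun h1 => hW ((hφ W).1 h1)
      have hπφ : φ π = 0 := (hφ π).2 dvd_rfl
      have h1 : φ (C δ) * φ U ^ 2 = - (φ B * φ W ^ 2) := by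
        have h2 := congrArg φ h
        rw [map_mul, map_pow, map_sub, map_mul, map_mul, map_mul, map_pow, map_pow, hπφ] at h2
        rw [h2]
        ring
      refine ⟨φ (C δ) * φ U / φ W, ?_⟩
      rw [C_neg, map_neg]
      field_simp
      linear_combination -(φ (C δ)) * h1

/-- in no finite extension `κ` of `k₁` every `β ∈ k₁` satisfies: `(a - β) (b - β)` or
`(β - l) (a - l)` is a square -/
def Star (k₁ : Type) [Field k₁] : Prop := ∀ (κ : Type) [Field κ] [Algebra k₁ κ],
  FiniteDimensional k₁ κ → ∀ a b l : k₁, a ≠ b → a ≠ l → b ≠ l → ∃ β : k₁,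
    ¬ IsSquare (algebraMap k₁ κ ((a - β) * (b - β))) ∧
    ¬ IsSquare (algebraMap k₁ κ ((β - l) * (a - l)))

/-- the conics of the polynomials `P β` have points -/
def Conics (P : k₁ → k₁[X]) : Prop := ∀ β γ : k₁, β ≠ γ → ∃ U V W : k₁[X],
  (U ≠ 0 ∨ V ≠ 0 ∨ W ≠ 0) ∧ C (γ - β) * U ^ 2 = P β * V ^ 2 - P γ * W ^ 2

lemma res {P : k₁ → k₁[X]} (hsq : ∀ β, Squarefree (P β)) (hc : Conics P) {κ : Type} [Field κ]
    (φ : k₁[X] →+* κ) {π : k₁[X]} (hπ : Irreducible π) (hφ : ∀ P, φ P = 0 ↔ π ∣ P) {β γ : k₁}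
    (hβ : π ∣ P β) (hγ : ¬ π ∣ P γ) : IsSquare (φ (C (β - γ)) * φ (P γ)) := by
  have hne : β ≠ γ := by
    rintro rfl
    exact hγ hβ
  obtain ⟨U, V, W, h0, h⟩ := hc β γ hne
  obtain ⟨A', hA'⟩ := hβ
  have hA : ¬ π ∣ A' := by
    rintro ⟨A'', rfl⟩
    exact hπ.not_isUnit (hsq β π ⟨A'', by rw [hA']; ring⟩)
  have h1 := residue φ hπ hφ (A' := A') (B := P γ) (δ := γ - β) (sub_ne_zero.2 hne.symm) hA hγ _
    U V W rfl h0 (by rw [h, hA'])
  rwa [neg_sub] at h1

lemma sq_of_mul {κ : Type} [Field κ] {x y z : κ} (hz : z ≠ 0) (h1 : IsSquare (x * z))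
    (h2 : IsSquare (y * z)) : IsSquare (x * y) := by
  obtain ⟨a, ha⟩ := h1
  obtain ⟨b, hb⟩ := h2
  refine ⟨a * b / z, ?_⟩
  field_simp
  linear_combination (y * z) * ha + a * a * hb

/-- **Claim U** -/
lemma claimU (hS : Star k₁) {P : k₁ → k₁[X]} (hsq : ∀ β, Squarefree (P β)) (hc : Conics P)
    {π : k₁[X]} (hπ : Irreducible π) {a b l : k₁} (hab : a ≠ b) (ha : π ∣ P a) (hb : π ∣ P b)
    (hl : ¬ π ∣ P l) : False := by
  have hal : a ≠ l := by rintro rfl; exact hl ha
  have hbl : b ≠ l := by rintro rfl; exact hl hb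
  have : Fact (Irreducible π) := ⟨hπ⟩
  have hφ : ∀ P : k₁[X], AdjoinRoot.mk π P = 0 ↔ π ∣ P := fun P => AdjoinRoot.mk_eq_zero
  have hfin : FiniteDimensional k₁ (AdjoinRoot π) := (AdjoinRoot.powerBasis hπ.ne_zero).finite
  have hC : ∀ c : k₁, AdjoinRoot.mk π (C c) = algebraMap k₁ (AdjoinRoot π) c := fun c => rfl
  obtain ⟨β, h1, h2⟩ := hS (AdjoinRoot π) hfin a b l hab hal hbl
  by_cases hβ : π ∣ P β
  · apply h2
    have k1 := res hsq hc (AdjoinRoot.mk π) hπ hφ hβ hl
    have k2 := res hsq hc (AdjoinRoot.mk π) hπ hφ ha hl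
    rw [hC] at k1 k2
    rw [map_mul]
    exact sq_of_mul (fun h => hl ((hφ _).1 h)) k1 k2
  · apply h1
    have k1 := res hsq hc (AdjoinRoot.mk π) hπ hφ ha hβ
    have k2 := res hsq hc (AdjoinRoot.mk π) hπ hφ hb hβ
    rw [hC] at k1 k2
    rw [map_mul]
    exact sq_of_mul (fun h => hβ ((hφ _).1 h)) k1 k2

/-- a squarefree polynomial divides another one if its irreducible factors do -/
lemma dvd_of_sqf : ∀ (n : ℕ) (P Q : k₁[X]), P.natDegree = n → Squarefree P → P ≠ 0 →
    (∀ π : k₁[X], Irreducible π → π ∣ P → π ∣ Q) → P ∣ Q := by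
  intro n
  induction n using Nat.strong_induction_on with
  | _ n ih =>
    intro P Q hn hs h0 h
    by_cases hu : IsUnit P
    · exact hu.dvd
    · obtain ⟨π, hπ, P', hP'⟩ := WfDvdMonoid.exists_irreducible_factor hu h0
      have hP'0 : P' ≠ 0 := by
        rintro rfl
        exact h0 (by rw [hP', mul_zero])
      have hπP' : ¬ π ∣ P' := by
        rintro ⟨A, rfl⟩
        exact hπ.not_isUnit (hs π ⟨A, by rw [hP']; ring⟩)
      have hlt : P'.natDegree < n := by
        rw [← hn, hP']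
        exact natDegree_lt_mul hπ hP'0
      have h1 : P' ∣ Q := ih _ hlt P' Q rfl (hs.squarefree_of_dvd ⟨π, by rw [hP']; ring⟩) hP'0
        (fun ρ hρ hρP => h ρ hρ (hP' ▸ hρP.mul_left π))
      rw [hP']
      exact IsCoprime.mul_dvd ((hπ.coprime_iff_not_dvd).2 hπP') (h π hπ ⟨P', hP'⟩) h1

/-- the number of the factors of a product divisible by `π` -/
lemma parity {K : Type} [Fintype K] {P : K → k₁[X]} (hsq : ∀ m, Squarefree (P m))
    {a b : k₁[X]} (ha : a ≠ 0) (hb : b ≠ 0) (h : (∏ m, P m) * a ^ 2 = X * b ^ 2)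
    {π : k₁[X]} (hπ : Irreducible π) [DecidablePred fun m : K => π ∣ P m] :
    (Associated π X → Odd (Finset.univ.filter fun m => π ∣ P m).card) ∧
    (¬ Associated π X → Even (Finset.univ.filter fun m => π ∣ P m).card) := by
  have hp : Prime π := hπ.prime
  have hfin : ∀ Q : k₁[X], Q ≠ 0 → FiniteMultiplicity π Q := fun Q hQ =>
    FiniteMultiplicity.of_not_isUnit hπ.not_isUnit hQ
  have h1 : emultiplicity π (∏ m, P m) = ((Finset.univ.filter fun m => π ∣ P m).card : ℕ∞) := by
    rw [Finset.emultiplicity_prod hp]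
    have h2 : ∀ m, emultiplicity π (P m) = if π ∣ P m then 1 else 0 := by
      intro m
      split_ifs with h3
      · apply le_antisymm
        · rcases (squarefree_iff_emultiplicity_le_one (P m)).1 (hsq m) π with h4 | h4
          · exact h4
          · exact absurd h4 hπ.not_isUnit
        · have h5 : ((1 : ℕ) : ℕ∞) ≤ emultiplicity π (P m) :=
            pow_dvd_iff_le_emultiplicity.1 (by rwa [pow_one])
          exact_mod_cast h5
      · exact emultiplicity_eq_zero.2 h3
    simp only [h2]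
    rw [Finset.sum_boole]
  have h2 : emultiplicity π ((∏ m, P m) * a ^ 2) =
      (((Finset.univ.filter fun m => π ∣ P m).card + 2 * multiplicity π a : ℕ) : ℕ∞) := by
    rw [emultiplicity_mul hp, emultiplicity_pow hp, h1, (hfin a ha).emultiplicity_eq_multiplicity]
    push_cast
    rfl
  have h3 : emultiplicity π (X * b ^ 2) =
      ((multiplicity π (X : k₁[X]) + 2 * multiplicity π b : ℕ) : ℕ∞) := by
    rw [emultiplicity_mul hp, emultiplicity_pow hp, (hfin b hb).emultiplicity_eq_multiplicity,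
      (hfin X X_ne_zero).emultiplicity_eq_multiplicity]
    push_cast
    rfl
  rw [h, h3] at h2
  have h4 : multiplicity π (X : k₁[X]) + 2 * multiplicity π b =
      (Finset.univ.filter fun m => π ∣ P m).card + 2 * multiplicity π a := by
    exact_mod_cast h2
  constructor
  · intro hass
    have h5 : multiplicity π (X : k₁[X]) = 1 := by
      have h6 : ((1 : ℕ) : ℕ∞) ≤ emultiplicity π (X : k₁[X]) :=
        pow_dvd_iff_le_emultiplicity.1 (by rw [pow_one]; exact hass.dvd)
      have h7 : emultiplicity π (X : k₁[X]) ≤ 1 := by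
        rcases (squarefree_iff_emultiplicity_le_one (X : k₁[X])).1 irreducible_X.squarefree π
          with h8 | h8
        · exact h8
        · exact absurd h8 hπ.not_isUnit
      rw [(hfin X X_ne_zero).emultiplicity_eq_multiplicity] at h6 h7
      have h8 : 1 ≤ multiplicity π (X : k₁[X]) := by exact_mod_cast h6
      have h9 : multiplicity π (X : k₁[X]) ≤ 1 := by exact_mod_cast h7
      omega
    rw [Nat.odd_iff]
    omega
  · intro hass
    have h5 : multiplicity π (X : k₁[X]) = 0 := by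
      apply multiplicity_eq_zero.2
      intro h6
      exact hass (hπ.associated_of_dvd irreducible_X h6)
    rw [Nat.even_iff]
    omega

/-- **the statement over the polynomial ring** -/
theorem main (hS : Star k₁) {P : k₁ → k₁[X]} (hsq : ∀ β, Squarefree (P β)) (h0 : ∀ β, P β ≠ 0)
    (hc : Conics P) {K : Type} [Fintype K] {e : K → k₁} (he : Function.Injective e)
    (hK : Even (Fintype.card K)) {a b : k₁[X]} (ha : a ≠ 0) (hb : b ≠ 0)
    (h : (∏ m, P (e m)) * a ^ 2 = X * b ^ 2) :
    ∃ i, ∀ l l', l ≠ i → l' ≠ i → ∃ γ : k₁, P (e l') = P (e l) * C γ ∧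
      IsSquare ((e i - e l) * (e i - e l') * γ) := by
  classical
  -- the number of the factors at a place where not all are divisible
  have hone : ∀ π : k₁[X], Irreducible π → ∀ j l, π ∣ P (e j) → ¬ π ∣ P (e l) →
      ∀ m, π ∣ P (e m) → m = j := by
    intro π hπ j l hj hl m hm
    by_contra hmj
    exact claimU hS hsq hc hπ (fun h1 => hmj (he h1)) hm hj hl
  have hX := (parity (P := fun m => P (e m)) (fun m => hsq _) ha hb h irreducible_X).1
    (Associated.refl _)
  obtain ⟨i, hi⟩ : ∃ i, X ∣ P (e i) := by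
    by_contra hno
    push Not at hno
    rw [Finset.filter_false_of_mem fun m _ => hno m, Finset.card_empty] at hX
    exact absurd hX (by decide)
  obtain ⟨l₀, hl₀⟩ : ∃ l, ¬ X ∣ P (e l) := by
    by_contra hno
    push Not at hno
    rw [Finset.filter_true_of_mem fun m _ => hno m, Finset.card_univ] at hX
    exact (Nat.not_even_iff_odd.2 hX) hK
  have hXi : ∀ m, m ≠ i → ¬ X ∣ P (e m) := fun m hm h1 =>
    hm (hone X irreducible_X i l₀ hi hl₀ m h1)
  have hall : ∀ π : k₁[X], Irreducible π → ∀ l l', l ≠ i → l' ≠ i → π ∣ P (e l) →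
      π ∣ P (e l') := by
    intro π hπ l l' hl hl' h1
    by_cases hass : Associated π X
    · exact absurd (hass.dvd_iff_dvd_left.1 h1) (hXi l hl)
    · by_contra h2
      have hev := (parity (P := fun m => P (e m)) (fun m => hsq _) ha hb h hπ).2 hass
      have hcard : (Finset.univ.filter fun m => π ∣ P (e m)) = {l} := by
        ext m
        simp only [Finset.mem_filter, Finset.mem_univ, true_and, Finset.mem_singleton]
        constructor
        · intro hm
          exact hone π hπ l l' h1 h2 m hm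
        · rintro rfl
          exact h1
      rw [hcard, Finset.card_singleton] at hev
      exact absurd hev (by decide)
  refine ⟨i, fun l l' hl hl' => ?_⟩
  have hd1 : P (e l) ∣ P (e l') := dvd_of_sqf _ _ _ rfl (hsq _) (h0 _)
    fun π hπ h1 => hall π hπ l l' hl hl' h1
  have hd2 : P (e l') ∣ P (e l) := dvd_of_sqf _ _ _ rfl (hsq _) (h0 _)
    fun π hπ h1 => hall π hπ l' l hl' hl h1
  obtain ⟨u, hu⟩ := associated_of_dvd_dvd hd1 hd2
  obtain ⟨γ, hγ, hγu⟩ := Polynomial.isUnit_iff.1 u.isUnit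
  refine ⟨γ, by rw [hγu, hu], ?_⟩
  have hφ : ∀ Q : k₁[X], evalRingHom 0 Q = 0 ↔ X ∣ Q := by
    intro Q
    rw [coe_evalRingHom, X_dvd_iff, coeff_zero_eq_eval_zero]
  have r1 := res hsq hc (evalRingHom (0 : k₁)) irreducible_X hφ hi (hXi l hl)
  have r2 := res hsq hc (evalRingHom (0 : k₁)) irreducible_X hφ hi (hXi l' hl')
  rw [← hu, ← hγu, map_mul] at r2
  simp only [coe_evalRingHom, eval_C] at r1 r2
  have hne : eval 0 (P (e l)) ≠ 0 := fun h1 => hXi l hl ((hφ _).1 (by rw [coe_evalRingHom, h1]))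
  have r3 : IsSquare ((e i - e l') * γ * eval 0 (P (e l))) := by
    have e1 : (e i - e l') * γ * eval 0 (P (e l)) = (e i - e l') * (eval 0 (P (e l)) * γ) := by ring
    rw [e1]
    exact r2
  have r4 := sq_of_mul hne r1 r3
  have e2 : (e i - e l) * (e i - e l') * γ = (e i - e l) * ((e i - e l') * γ) := by ring
  rw [e2]
  exact r4

end Pool.Agent.Zk26.GT
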