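import Mathlib
import Pool.Agent.Zk12.GT.Stm
import Pool.Agent.Zk26.GT.PolA

/-!
Square classes of polynomials and conics over `k₁(X)`: the twist by an irreducible polynomial `D` such
that `k₁[X] / (D)` contains no quadratic extension of `k₁` (S_POLD, helper12).
-/

set_option autoImplicit false

namespace Pool.Agent.Zk26.GT

open Polynomial

section

variable {k₁ : Type} [Field k₁]

/-- the number of the factors of a product divisible by `π` -/
lemma parityD {D : k₁[X]} (hD : Irreducible D) {K : Type} [Fintype K] {P : K → k₁[X]} (hsq : ∀ m, Squarefree (P m))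
    {a b : k₁[X]} (ha : a ≠ 0) (hb : b ≠ 0) (h : (∏ m, P m) * a ^ 2 = D * b ^ 2)
    {π : k₁[X]} (hπ : Irreducible π) [DecidablePred fun m : K => π ∣ P m] :
    (Associated π D → Odd (Finset.univ.filter fun m => π ∣ P m).card) ∧
    (¬ Associated π D → Even (Finset.univ.filter fun m => π ∣ P m).card) := by
  have hp : Prime π := hπ.prime
  have hfin : ∀ Q : k₁[X], Q ≠ 0 → FiniteMultiplicity π Q := fun Q hQ =>
    FiniteMultiplicity.of_not_isUnit hπ.not_isUnit hQ
  have h1 : emultiplicity π (∏ m, P m) = ((Finset.univ.filter fun m => π ∣ P m).card : ℕ∞) := by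
    rw [Finset.emultiplicity_prod hp]
    have h2 : ∀ m, emultiplicity π (P m) = if π ∣ P m then 1 else 0 := by
      intro m
      split_ifs with h3
      · apply le_antisymm
        · rcases (squarefree_iff_emultiplicity_le_one (P m)).1 (hsq m) π with h4 | h4
          · exact h4
          · exact absurd h4 hπ.not_isUnit
        · have h5 : ((1 : ℕ) : ℕ∞) ≤ emultiplicity π (P m) :=
            pow_dvd_iff_le_emultiplicity.1 (by rwa [pow_one])
          exact_mod_cast h5
      · exact emultiplicity_eq_zero.2 h3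
    simp only [h2]
    rw [Finset.sum_boole]
  have h2 : emultiplicity π ((∏ m, P m) * a ^ 2) =
      (((Finset.univ.filter fun m => π ∣ P m).card + 2 * multiplicity π a : ℕ) : ℕ∞) := by
    rw [emultiplicity_mul hp, emultiplicity_pow hp, h1, (hfin a ha).emultiplicity_eq_multiplicity]
    push_cast
    rfl
  have h3 : emultiplicity π (D * b ^ 2) =
      ((multiplicity π D + 2 * multiplicity π b : ℕ) : ℕ∞) := by
    rw [emultiplicity_mul hp, emultiplicity_pow hp, (hfin b hb).emultiplicity_eq_multiplicity,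
      (hfin D hD.ne_zero).emultiplicity_eq_multiplicity]
    push_cast
    rfl
  rw [h, h3] at h2
  have h4 : multiplicity π D + 2 * multiplicity π b =
      (Finset.univ.filter fun m => π ∣ P m).card + 2 * multiplicity π a := by
    exact_mod_cast h2
  constructor
  · intro hass
    have h5 : multiplicity π D = 1 := by
      have h6 : ((1 : ℕ) : ℕ∞) ≤ emultiplicity π D :=
        pow_dvd_iff_le_emultiplicity.1 (by rw [pow_one]; exact hass.dvd)
      have h7 : emultiplicity π D ≤ 1 := by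
        rcases (squarefree_iff_emultiplicity_le_one D).1 hD.squarefree π
          with h8 | h8
        · exact h8
        · exact absurd h8 hπ.not_isUnit
      rw [(hfin D hD.ne_zero).emultiplicity_eq_multiplicity] at h6 h7
      have h8 : 1 ≤ multiplicity π D := by exact_mod_cast h6
      have h9 : multiplicity π D ≤ 1 := by exact_mod_cast h7
      omega
    rw [Nat.odd_iff]
    omega
  · intro hass
    have h5 : multiplicity π D = 0 := by
      apply multiplicity_eq_zero.2
      intro h6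
      exact hass (hπ.associated_of_dvd hD h6)
    rw [Nat.even_iff]
    omega

/-- **the statement over the polynomial ring** -/
theorem mainD {D : k₁[X]} (hD : Irreducible D)
    (hDq : ∀ c : k₁, IsSquare (algebraMap k₁ (AdjoinRoot D) c) → IsSquare c) (hS : Star k₁) {P : k₁ → k₁[X]} (hsq : ∀ β, Squarefree (P β)) (h0 : ∀ β, P β ≠ 0)
    (hc : Conics P) {K : Type} [Fintype K] {e : K → k₁} (he : Function.Injective e)
    (hK : Even (Fintype.card K)) {a b : k₁[X]} (ha : a ≠ 0) (hb : b ≠ 0)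
    (h : (∏ m, P (e m)) * a ^ 2 = D * b ^ 2) :
    ∃ i, ∀ l l', l ≠ i → l' ≠ i → ∃ γ : k₁, P (e l') = P (e l) * C γ ∧
      IsSquare ((e i - e l) * (e i - e l') * γ) := by
  classical
  -- the number of the factors at a place where not all are divisible
  have hone : ∀ π : k₁[X], Irreducible π → ∀ j l, π ∣ P (e j) → ¬ π ∣ P (e l) →
      ∀ m, π ∣ P (e m) → m = j := by
    intro π hπ j l hj hl m hm
    by_contra hmj
    exact claimU hS hsq hc hπ (fun h1 => hmj (he h1)) hm hj hl
  have hX := (parityD hD (P := fun m => P (e m)) (fun m => hsq _) ha hb h hD).1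
    (Associated.refl _)
  obtain ⟨i, hi⟩ : ∃ i, D ∣ P (e i) := by
    by_contra hno
    push Not at hno
    rw [Finset.filter_false_of_mem fun m _ => hno m, Finset.card_empty] at hX
    exact absurd hX (by decide)
  obtain ⟨l₀, hl₀⟩ : ∃ l, ¬ D ∣ P (e l) := by
    by_contra hno
    push Not at hno
    rw [Finset.filter_true_of_mem fun m _ => hno m, Finset.card_univ] at hX
    exact (Nat.not_even_iff_odd.2 hX) hK
  have hXi : ∀ m, m ≠ i → ¬ D ∣ P (e m) := fun m hm h1 =>
    hm (hone D hD i l₀ hi hl₀ m h1)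
  have hall : ∀ π : k₁[X], Irreducible π → ∀ l l', l ≠ i → l' ≠ i → π ∣ P (e l) →
      π ∣ P (e l') := by
    intro π hπ l l' hl hl' h1
    by_cases hass : Associated π D
    · exact absurd (hass.dvd_iff_dvd_left.1 h1) (hXi l hl)
    · by_contra h2
      have hev := (parityD hD (P := fun m => P (e m)) (fun m => hsq _) ha hb h hπ).2 hass
      have hcard : (Finset.univ.filter fun m => π ∣ P (e m)) = {l} := by
        ext m
        simp only [Finset.mem_filter, Finset.mem_univ, true_and, Finset.mem_singleton]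
        constructor
        · intro hm
          exact hone π hπ l l' h1 h2 m hm
        · rintro rfl
          exact h1
      rw [hcard, Finset.card_singleton] at hev
      exact absurd hev (by decide)
  refine ⟨i, fun l l' hl hl' => ?_⟩
  have hd1 : P (e l) ∣ P (e l') := dvd_of_sqf _ _ _ rfl (hsq _) (h0 _)
    fun π hπ h1 => hall π hπ l l' hl hl' h1
  have hd2 : P (e l') ∣ P (e l) := dvd_of_sqf _ _ _ rfl (hsq _) (h0 _)
    fun π hπ h1 => hall π hπ l' l hl' hl h1
  obtain ⟨u, hu⟩ := associated_of_dvd_dvd hd1 hd2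
  obtain ⟨γ, hγ, hγu⟩ := Polynomial.isUnit_iff.1 u.isUnit
  refine ⟨γ, by rw [hγu, hu], ?_⟩
  have : Fact (Irreducible D) := ⟨hD⟩
  have hφ : ∀ Q : k₁[X], AdjoinRoot.mk D Q = 0 ↔ D ∣ Q := fun Q => AdjoinRoot.mk_eq_zero
  have hC : ∀ c : k₁, AdjoinRoot.mk D (C c) = algebraMap k₁ (AdjoinRoot D) c := fun c => rfl
  have r1 := res hsq hc (AdjoinRoot.mk D) hD hφ hi (hXi l hl)
  have r2 := res hsq hc (AdjoinRoot.mk D) hD hφ hi (hXi l' hl')
  rw [← hu, ← hγu, map_mul] at r2
  rw [hC] at r1 r2
  rw [hC] at r2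
  have hne : AdjoinRoot.mk D (P (e l)) ≠ 0 := fun h1 => hXi l hl ((hφ _).1 h1)
  have r3 : IsSquare (algebraMap k₁ (AdjoinRoot D) ((e i - e l') * γ) * AdjoinRoot.mk D (P (e l))) := by
    have e1 : algebraMap k₁ (AdjoinRoot D) ((e i - e l') * γ) * AdjoinRoot.mk D (P (e l)) =
        algebraMap k₁ (AdjoinRoot D) (e i - e l') *
          (AdjoinRoot.mk D (P (e l)) * algebraMap k₁ (AdjoinRoot D) γ) := by
      rw [map_mul]
      ring
    rw [e1]
    exact r2
  have r4 := sq_of_mul hne r1 r3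
  rw [← map_mul] at r4
  have e2 : (e i - e l) * (e i - e l') * γ = (e i - e l) * ((e i - e l') * γ) := by ring
  rw [e2]
  exact hDq _ r4

end

/-- the statement without the condition on the cross ratios -/
theorem polD (k₁ k : Type) [Field k₁] [CharZero k₁] [Field k] [Algebra k₁ k]
    (hS : Pool.Agent.Zk12.GT.Star k₁) (t₀ : k) (ht : Transcendental k₁ t₀)
    (htop : IntermediateField.adjoin k₁ {t₀} = ⊤) (D : k₁[X]) (hD : Irreducible D)
    (hDq : ∀ c : k₁, IsSquare (algebraMap k₁ (AdjoinRoot D) c) → IsSquare c) (K : Type) [Fintype K] (e : K → k₁)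
    (he : Function.Injective e) (hK : Even (Fintype.card K)) (c : k₁ → k) (hc0 : ∀ β, c β ≠ 0)
    (hprod : ∃ q : k, ∏ m, c (e m) = aeval t₀ D * q ^ 2)
    (hcon : ∀ β γ : k₁, β ≠ γ → ∃ u v w : k, (u ≠ 0 ∨ v ≠ 0 ∨ w ≠ 0) ∧
      u ^ 2 = c β / algebraMap k₁ k (γ - β) * v ^ 2 + c γ / algebraMap k₁ k (β - γ) * w ^ 2) :
    ∃ i, ∀ l l', l ≠ i → l' ≠ i →
      IsSquare (c (e l) * c (e l') * algebraMap k₁ k ((e i - e l) * (e i - e l'))) := by
  classical
  have hinj : Function.Injective (aeval t₀ : k₁[X] →ₐ[k₁] k) :=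
    transcendental_iff_injective.1 ht
  obtain ⟨ι, hι⟩ : ∃ ι : k₁[X] →+* k, ∀ Q, ι Q = aeval t₀ Q := ⟨(aeval t₀ : k₁[X] →ₐ[k₁] k), fun _ => rfl⟩
  have hιi : Function.Injective ι := fun a b h => hinj (by rw [← hι, ← hι, h])
  have hιC : ∀ a : k₁, ι (C a) = algebraMap k₁ k a := fun a => by rw [hι, aeval_C]
  have hιX : ι D = aeval t₀ D := hι D
  have hι0 : ∀ Q, Q ≠ 0 → ι Q ≠ 0 := fun Q hQ h => hQ (hιi (by rw [h, map_zero]))
  -- fractions
  have hfrac : ∀ z : k, ∃ a b : k₁[X], b ≠ 0 ∧ z = ι a / ι b := by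
    intro z
    have hz : z ∈ IntermediateField.adjoin k₁ {t₀} := by
      rw [htop]
      exact IntermediateField.mem_top
    obtain ⟨r, s, hrs⟩ := (IntermediateField.mem_adjoin_simple_iff k₁ z).1 hz
    by_cases hs : s = 0
    · refine ⟨0, 1, one_ne_zero, ?_⟩
      rw [hrs, hs]
      simp
    · exact ⟨r, s, hs, by rw [hrs, hι, hι]⟩
  -- the squarefree polynomials
  have hP : ∀ β : k₁, ∃ (P : k₁[X]) (s : k), Squarefree P ∧ P ≠ 0 ∧ s ≠ 0 ∧ c β = ι P * s ^ 2 := by
    intro β
    obtain ⟨a, b, hb, hab⟩ := hfrac (c β)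
    have ha : a ≠ 0 := by
      rintro rfl
      rw [map_zero, zero_div] at hab
      exact hc0 β hab
    obtain ⟨S, r, hS1, hS0, hr, hSr⟩ := sqf _ (a * b) rfl (mul_ne_zero ha hb)
    refine ⟨S, ι r / ι b, hS1, hS0, div_ne_zero (hι0 r hr) (hι0 b hb), ?_⟩
    have h1 := congrArg ι hSr
    rw [map_mul, map_mul, map_pow] at h1
    have hb' := hι0 b hb
    rw [hab]
    field_simp
    linear_combination h1
  choose P s hsq hP0 hs0 hPs using hP
  -- the conics
  have hconics : Conics P := by
    intro β γ hne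
    obtain ⟨u, v, w, h0, h⟩ := hcon β γ hne
    obtain ⟨a1, b1, hb1, h1⟩ := hfrac u
    obtain ⟨a2, b2, hb2, h2⟩ := hfrac (s β * v)
    obtain ⟨a3, b3, hb3, h3⟩ := hfrac (s γ * w)
    have hb1' := hι0 _ hb1
    have hb2' := hι0 _ hb2
    have hb3' := hι0 _ hb3
    refine ⟨a1 * b2 * b3, a2 * b1 * b3, a3 * b1 * b2, ?_, ?_⟩
    · rcases h0 with h4 | h4 | h4
      · left
        refine mul_ne_zero (mul_ne_zero ?_ hb2) hb3
        rintro rfl
        rw [map_zero, zero_div] at h1
        exact h4 h1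
      · right; left
        refine mul_ne_zero (mul_ne_zero ?_ hb1) hb3
        rintro rfl
        rw [map_zero, zero_div] at h2
        exact (mul_ne_zero (hs0 β) h4) h2
      · right; right
        refine mul_ne_zero (mul_ne_zero ?_ hb1) hb2
        rintro rfl
        rw [map_zero, zero_div] at h3
        exact (mul_ne_zero (hs0 γ) h4) h3
    · apply hιi
      have hδ : algebraMap k₁ k (γ - β) ≠ 0 := by
        rw [ne_eq, map_eq_zero]
        exact sub_ne_zero.2 hne.symm
      have hδ' : algebraMap k₁ k (β - γ) = - algebraMap k₁ k (γ - β) := by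
        rw [← map_neg, neg_sub]
      have h5 : algebraMap k₁ k (γ - β) * u ^ 2 = ι (P β) * (s β * v) ^ 2 - ι (P γ) * (s γ * w) ^ 2 := by
        rw [h, hPs β, hPs γ, hδ']
        field_simp
        ring
      rw [h1, h2, h3] at h5
      simp only [map_mul ι, map_pow ι, map_sub ι, hιC]
      field_simp at h5
      linear_combination h5
  -- the product
  obtain ⟨q, hq⟩ := hprod
  have hq0 : q ≠ 0 := by
    rintro rfl
    have h1 : ∏ m, c (e m) ≠ 0 := Finset.prod_ne_zero_iff.2 fun m _ => hc0 _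
    rw [hq] at h1
    simp at h1
  obtain ⟨a, b, hb, hab⟩ := hfrac ((∏ m, s (e m)) / q)
  have ha : a ≠ 0 := by
    rintro rfl
    rw [map_zero, zero_div] at hab
    have h1 : ∏ m, s (e m) ≠ 0 := Finset.prod_ne_zero_iff.2 fun m _ => hs0 _
    exact (div_ne_zero h1 hq0) hab
  have hprod2 : (∏ m, P (e m)) * a ^ 2 = D * b ^ 2 := by
    apply hιi
    have hb' := hι0 _ hb
    have h1 : (∏ m, ι (P (e m))) * (∏ m, s (e m)) ^ 2 = aeval t₀ D * q ^ 2 := by
      rw [← hq, ← Finset.prod_pow, ← Finset.prod_mul_distrib]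
      exact Finset.prod_congr rfl fun m _ => (hPs (e m)).symm
    have h2 : ∏ m, s (e m) = ι a / ι b * q := by
      rw [← hab]
      field_simp
    rw [h2] at h1
    rw [map_mul, map_pow, map_mul, map_pow, hιX, map_prod]
    have h3 : (∏ m, ι (P (e m))) * ι a ^ 2 * q ^ 2 = aeval t₀ D * ι b ^ 2 * q ^ 2 := by
      field_simp at h1
      linear_combination q ^ 2 * h1
    exact mul_right_cancel₀ (pow_ne_zero 2 hq0) h3
  have hS' : Star k₁ := fun κ _ _ hfin a b l h1 h2 h3 => hS κ hfin a b l h1 h2 h3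
  obtain ⟨i, hi⟩ := mainD hD hDq hS' hsq hP0 hconics he hK ha hb hprod2
  refine ⟨i, fun l l' hl hl' => ?_⟩
  obtain ⟨γ, hγ, z, hz⟩ := hi l l' hl hl'
  refine ⟨ι (P (e l)) * s (e l) * s (e l') * algebraMap k₁ k z, ?_⟩
  have h1 : algebraMap k₁ k ((e i - e l) * (e i - e l')) * algebraMap k₁ k γ =
      algebraMap k₁ k z * algebraMap k₁ k z := by
    rw [← map_mul, hz, map_mul]
  rw [hPs (e l), hPs (e l'), hγ, map_mul, hιC]
  linear_combination (ι (P (e l))) ^ 2 * s (e l) ^ 2 * s (e l') ^ 2 * h1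


end Pool.Agent.Zk26.GT
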