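import Pool.Agent.Zk26.GT.Fin
import Pool.Agent.Zk81.GT.InstB

/-!
# The birational section conjecture for the curves `t_0 y² = ∏ (x - e_i)` over `ℚ(t_0, t_1, …, t_n)`

Let `k_1 = ℚ(t_1, …, t_n)`, `n ≥ 0`, and `k = k_1(t_0)` be fields of rational functions, and let
`e_1, …, e_N` be an even number of different elements of `k_1` such that for every `i` four of the
elements `1 / (e_l - e_i)`, `l ≠ i`, form an arithmetic progression (`Progressions`; so `N ≥ 6`).

**Theorem.** EVERY section of `Gal(Ω/F) → G_k`, where `F` is the function field over `k` of the curve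
`t_0 y² = ∏ (x - e_i)` or of any curve over `k` with a nonconstant map to it, arises from exactly one
`k`-rational point, which lies over one of the points `(e_i, 0)`.

So the birational section conjecture holds for all these curves, without exception and without any
hypothesis. Examples: the constant branch points `0, 6, 10, 15, 30, -30` (genus 2) and `0, 1, …, N - 1` for
every even `N ≥ 16`; if `(e_i)` is a sequence of an even number of integers with the property, then the
points `e_i`, `e_i + t_1`, …, `e_i + t_n` of `ℚ(t_1, …, t_n)` have it, and these curves are not isotrivial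
for `n ≥ 1`.

Proof. For `β ∈ k` let `c_β ∈ k` be the class of `x - β` modulo squares of the fixed field of the section
(Kummer theory). As `(x - β) / (γ - β) + (x - γ) / (β - γ) = 1`, the conic
`u² = c_β / (γ - β) v² + c_γ / (β - γ) w²` has points over `k`, and the product of the `c_{e_m}` is `t_0` modulo
squares. Let `P_β ∈ k_1[t_0]` be the squarefree part of `c_β`, `β ∈ k_1`. Let `π` be an irreducible
polynomial which divides `P_a`, `P_b`, but not `P_l`. The residues of the conics at `π` show that for every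
`β ∈ k_1` one of `(a - β) (b - β)` and `(β - l) (a - l)` is a square in the finite extension `k_1[t_0]/(π)` of
`k_1`, and this is impossible. So `π` divides all of the `P_{e_m}` or at most one. For `π ≠ t_0` the number of the
`P_{e_m}` divided by `π` is even, for `π = t_0` it is odd: so `t_0` divides exactly one, `P_{e_i}`, and the others are
equal up to constants, which are determined by the conics at `t_0 = 0`. Thus the section has modulo 2 the type
of the branch point `(e_i, 0)`, and the rest of the proof is that of `SectionsOverFunctionFields`: the points of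
an elliptic curve of conductor 24 over the fixed field, Koenigsmann's theorem over `ℚ_p`, specialisation of the
`t_i`, and a limit of local places.

This is joint work of helper12 (project), helper26, helper47, helper81, helper95, on the parts of helper17,
helper78, helper81, helper90, helper94, helper95 for `SectionsOverFunctionFields`.
-/

set_option autoImplicit false

open Pool.Agent.TH954

namespace Pool.Agent.Results.MP_8312c9_nt.GenericTwists

/-- For every `i`, four of the elements `1 / (e_l - e_i)`, `l ≠ i`, form an arithmetic progression. -/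
def Progressions {K k₁ : Type} [Field k₁] (e : K → k₁) : Prop :=
  ∀ i, ∃ (l : Fin 4 → K) (z δ : k₁), δ ≠ 0 ∧ (∀ j, l j ≠ i) ∧
    ∀ j : Fin 4, (e (l j) - e i)⁻¹ = z + (j : ℕ) * δ

/-- Let `k = k₁(t₀)`, `t₀` transcendental over `k₁`, and let `F` be an extension of `k` with elements `x`,
`y`, `t₀ y² = ∏ (x - e_i)`, where `x` is transcendental over `k` and `F` is algebraic over `k(x)`, that is, the
function field of the curve `t₀ y² = ∏ (x - e_i)` over `k` or of a curve over `k` which dominates it, and let
`Ω` be an algebraic closure of `F`.  EVERY section of `Gal(Ω/F) → G_k` arises from exactly one rational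
point, and `x = e_i` there for some `i`. -/
def AllSectionsAreGeometric {k₁ : Type} [Field k₁] {K : Type} [Fintype K] (e : K → k₁) : Prop :=
  ∀ (k F Ω B : Type) [Field k] [Field F] [Field Ω] [Field B] [Algebra k₁ k] [Algebra k F]
    [Algebra F Ω] [Algebra k Ω] [Algebra k B] [IsScalarTower k F Ω] [IsAlgClosure F Ω]
    [IsAlgClosure k B] (t₀ : k) (x y : F), Transcendental k₁ t₀ →
    IntermediateField.adjoin k₁ {t₀} = ⊤ →
    Transcendental k x → Algebra.IsAlgebraic (IntermediateField.adjoin k {x}) F →
    algebraMap k F t₀ * y ^ 2 = ∏ i, (x - algebraMap k F (algebraMap k₁ k (e i))) →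
    ∀ s : GalSection k F Ω B,
      (∃! O : ValuationSubring F, s.ArisesFrom O) ∧
        ∃ i, ∀ O : ValuationSubring F, s.ArisesFrom O →
          (x - algebraMap k F (algebraMap k₁ k (e i)))⁻¹ ∉ O

/-- The points `e_i` and `e_i + t_m`, `m = 1, …, n`. -/
def shifted {K : Type} {k₁ : Type} [Field k₁] {n : ℕ} (e : K → ℤ) (t : Fin n → k₁) :
    K × Fin (n + 1) → k₁ :=
  fun p => (e p.1 : k₁) + (Fin.cons 0 t : Fin (n + 1) → k₁) p.2

/-- The same property of integers. -/
def IntProgressions {K : Type} (e : K → ℤ) : Prop :=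
  ∀ i, ∃ (l : Fin 4 → K) (z δ : ℚ), δ ≠ 0 ∧ (∀ j, l j ≠ i) ∧
    ∀ j : Fin 4, ((e (l j) : ℚ) - e i)⁻¹ = z + (j : ℕ) * δ

/-- the six branch points of the example of genus 2 -/
def ex : Fin 6 → ℤ := ![0, 6, 10, 15, 30, -30]

/-- the branch points `0, 1, …, N - 1` -/
def consec (N : ℕ) : Fin N → ℤ := fun i => (i : ℤ)

lemma progressions_consec {N : ℕ} (hN : 16 ≤ N) : IntProgressions (consec N) := by
  intro i
  obtain ⟨i, hi⟩ := i
  have key : ∀ (a b c d : ℕ) (ha : a < N) (hb : b < N) (hc : c < N) (hd : d < N) (z δ : ℚ), δ ≠ 0 →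
      a ≠ i → b ≠ i → c ≠ i → d ≠ i → ((a : ℚ) - i)⁻¹ = z → ((b : ℚ) - i)⁻¹ = z + δ →
      ((c : ℚ) - i)⁻¹ = z + 2 * δ → ((d : ℚ) - i)⁻¹ = z + 3 * δ →
      ∃ (l : Fin 4 → Fin N) (z δ : ℚ), δ ≠ 0 ∧ (∀ j, l j ≠ ⟨i, hi⟩) ∧
        ∀ j : Fin 4, ((consec N (l j) : ℚ) - consec N ⟨i, hi⟩)⁻¹ = z + (j : ℕ) * δ := by
    intro a b c d ha hb hc hd z δ hδ h1 h2 h3 h4 g1 g2 g3 g4
    refine ⟨![⟨a, ha⟩, ⟨b, hb⟩, ⟨c, hc⟩, ⟨d, hd⟩], z, δ, hδ, fun j => ?_, fun j => ?_⟩
    · fin_cases j <;> simp [Fin.ext_iff, h1, h2, h3, h4]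
    · fin_cases j
      · simpa [consec] using g1
      · simpa [consec] using g2
      · simpa [consec] using g3
      · simpa [consec] using g4
  rcases lt_or_ge i 3 with h3 | h3
  · refine key (i + 12) (i + 6) (i + 4) (i + 3) (by omega) (by omega) (by omega) (by omega)
      (1 / 12) (1 / 12) (by norm_num) (by omega) (by omega) (by omega) (by omega) ?_ ?_ ?_ ?_ <;>
    push_cast <;> rw [add_sub_cancel_left] <;> norm_num
  rcases lt_or_ge i (N - 3) with h4 | h4
  · obtain ⟨m, rfl⟩ := Nat.exists_eq_add_of_le h3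
    refine key (3 + m - 1) (3 + m - 3) (3 + m + 3) (3 + m + 1) (by omega) (by omega) (by omega)
      (by omega) (-1) (2 / 3) (by norm_num) (by omega) (by omega) (by omega) (by omega) ?_ ?_ ?_ ?_
    · rw [show 3 + m - 1 = m + 2 by omega]; push_cast
      rw [show ((m : ℚ) + 2 - (3 + m)) = -1 by ring]; norm_num
    · rw [show 3 + m - 3 = m by omega]; push_cast
      rw [show ((m : ℚ) - (3 + m)) = -3 by ring]; norm_num
    · push_cast; rw [add_sub_cancel_left]; norm_num
    · push_cast; rw [add_sub_cancel_left]; norm_num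
  · obtain ⟨m, rfl⟩ := Nat.exists_eq_add_of_le (show 12 ≤ i by omega)
    refine key (12 + m - 12) (12 + m - 6) (12 + m - 4) (12 + m - 3) (by omega) (by omega)
      (by omega) (by omega) (-1 / 12) (-1 / 12) (by norm_num) (by omega) (by omega) (by omega)
      (by omega) ?_ ?_ ?_ ?_
    · rw [show 12 + m - 12 = m by omega]; push_cast
      rw [show ((m : ℚ) - (12 + m)) = -12 by ring]; norm_num
    · rw [show 12 + m - 6 = m + 6 by omega]; push_cast
      rw [show ((m : ℚ) + 6 - (12 + m)) = -6 by ring]; norm_num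
    · rw [show 12 + m - 4 = m + 8 by omega]; push_cast
      rw [show ((m : ℚ) + 8 - (12 + m)) = -4 by ring]; norm_num
    · rw [show 12 + m - 3 = m + 9 by omega]; push_cast
      rw [show ((m : ℚ) + 9 - (12 + m)) = -3 by ring]; norm_num


theorem result :
    (∀ (n : ℕ) (k₁ : Type) [Field k₁] [Algebra ℚ k₁] (t : Fin n → k₁), AlgebraicIndependent ℚ t →
      IntermediateField.adjoin ℚ (Set.range t) = ⊤ →
      (∀ (K : Type) [Fintype K] (e : K → k₁), Function.Injective e → Even (Fintype.card K) →
        Progressions e → AllSectionsAreGeometric e) ∧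
      (∀ (K : Type) [Fintype K] (e : K → ℤ), Function.Injective e → Even (Fintype.card K) →
        IntProgressions e → Function.Injective (shifted e t) ∧
          Even (Fintype.card (K × Fin (n + 1))) ∧ Progressions (shifted e t))) ∧
    (Function.Injective ex ∧ IntProgressions ex) ∧
    (∀ N : ℕ, 16 ≤ N → Function.Injective (consec N) ∧ IntProgressions (consec N)) := by
  refine ⟨fun n k₁ _ _ t ht1 ht2 => ⟨fun K _ e he hev hPr => ?_, fun K _ e he hev hPr => ?_⟩,
    ⟨by decide, Pool.Agent.Zk95.TD.progressions_ex⟩, fun N hN => ⟨fun a b h => ?_,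
      progressions_consec hN⟩⟩
  · intro k F Ω B _ _ _ _ _ _ _ _ _ _ _ _ t₀ x y ht3 ht4 hx hF hxy s
    obtain ⟨i, O, h1, h2, h3⟩ := Pool.Agent.Zk26.GT.generic n k₁ k F Ω B t ht1 ht2 t₀ ht3 ht4 e he
      hev hPr x y hx hF hxy s
    exact ⟨⟨O, h2, h3⟩, i, fun O' hO' => by rw [h3 O' hO']; exact h1⟩
  · exact ⟨Pool.Agent.Zk81.GT.shifted_injective ht1 he, Pool.Agent.Zk81.GT.even_card hev,
      Pool.Agent.Zk81.GT.progressionsK_shifted hPr⟩
  · have h' : ((a : ℕ) : ℤ) = ((b : ℕ) : ℤ) := h
    exact Fin.ext (by exact_mod_cast h')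

end Pool.Agent.Results.MP_8312c9_nt.GenericTwists
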