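import Mathlib
import Pool.Agent.Zk12.GT.Stm
import Pool.Agent.Zk26.GT.PolA

/-!
Part P of project GT (helper12): the classes come, modulo 2, from one of the points `x = e_i`.
-/

set_option autoImplicit false

namespace Pool.Agent.Zk26.GT

open Polynomial

/-- the statement without the condition on the cross ratios -/
theorem pol' (k₁ k : Type) [Field k₁] [CharZero k₁] [Field k] [Algebra k₁ k]
    (hS : Pool.Agent.Zk12.GT.Star k₁) (t₀ : k) (ht : Transcendental k₁ t₀)
    (htop : IntermediateField.adjoin k₁ {t₀} = ⊤) (K : Type) [Fintype K] (e : K → k₁)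
    (he : Function.Injective e) (hK : Even (Fintype.card K)) (c : k₁ → k) (hc0 : ∀ β, c β ≠ 0)
    (hprod : ∃ q : k, ∏ m, c (e m) = t₀ * q ^ 2)
    (hcon : ∀ β γ : k₁, β ≠ γ → ∃ u v w : k, (u ≠ 0 ∨ v ≠ 0 ∨ w ≠ 0) ∧
      u ^ 2 = c β / algebraMap k₁ k (γ - β) * v ^ 2 + c γ / algebraMap k₁ k (β - γ) * w ^ 2) :
    ∃ i, ∀ l l', l ≠ i → l' ≠ i →
      IsSquare (c (e l) * c (e l') * algebraMap k₁ k ((e i - e l) * (e i - e l'))) := by
  classical
  have hinj : Function.Injective (aeval t₀ : k₁[X] →ₐ[k₁] k) :=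
    transcendental_iff_injective.1 ht
  obtain ⟨ι, hι⟩ : ∃ ι : k₁[X] →+* k, ∀ Q, ι Q = aeval t₀ Q := ⟨(aeval t₀ : k₁[X] →ₐ[k₁] k), fun _ => rfl⟩
  have hιi : Function.Injective ι := fun a b h => hinj (by rw [← hι, ← hι, h])
  have hιC : ∀ a : k₁, ι (C a) = algebraMap k₁ k a := fun a => by rw [hι, aeval_C]
  have hιX : ι X = t₀ := by rw [hι, aeval_X]
  have hι0 : ∀ Q, Q ≠ 0 → ι Q ≠ 0 := fun Q hQ h => hQ (hιi (by rw [h, map_zero]))
  -- fractions
  have hfrac : ∀ z : k, ∃ a b : k₁[X], b ≠ 0 ∧ z = ι a / ι b := by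
    intro z
    have hz : z ∈ IntermediateField.adjoin k₁ {t₀} := by
      rw [htop]
      exact IntermediateField.mem_top
    obtain ⟨r, s, hrs⟩ := (IntermediateField.mem_adjoin_simple_iff k₁ z).1 hz
    by_cases hs : s = 0
    · refine ⟨0, 1, one_ne_zero, ?_⟩
      rw [hrs, hs]
      simp
    · exact ⟨r, s, hs, by rw [hrs, hι, hι]⟩
  -- the squarefree polynomials
  have hP : ∀ β : k₁, ∃ (P : k₁[X]) (s : k), Squarefree P ∧ P ≠ 0 ∧ s ≠ 0 ∧ c β = ι P * s ^ 2 := by
    intro β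
    obtain ⟨a, b, hb, hab⟩ := hfrac (c β)
    have ha : a ≠ 0 := by
      rintro rfl
      rw [map_zero, zero_div] at hab
      exact hc0 β hab
    obtain ⟨S, r, hS1, hS0, hr, hSr⟩ := sqf _ (a * b) rfl (mul_ne_zero ha hb)
    refine ⟨S, ι r / ι b, hS1, hS0, div_ne_zero (hι0 r hr) (hι0 b hb), ?_⟩
    have h1 := congrArg ι hSr
    rw [map_mul, map_mul, map_pow] at h1
    have hb' := hι0 b hb
    rw [hab]
    field_simp
    linear_combination h1
  choose P s hsq hP0 hs0 hPs using hP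
  -- the conics
  have hconics : Conics P := by
    intro β γ hne
    obtain ⟨u, v, w, h0, h⟩ := hcon β γ hne
    obtain ⟨a1, b1, hb1, h1⟩ := hfrac u
    obtain ⟨a2, b2, hb2, h2⟩ := hfrac (s β * v)
    obtain ⟨a3, b3, hb3, h3⟩ := hfrac (s γ * w)
    have hb1' := hι0 _ hb1
    have hb2' := hι0 _ hb2
    have hb3' := hι0 _ hb3
    refine ⟨a1 * b2 * b3, a2 * b1 * b3, a3 * b1 * b2, ?_, ?_⟩
    · rcases h0 with h4 | h4 | h4
      · left
        refine mul_ne_zero (mul_ne_zero ?_ hb2) hb3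
        rintro rfl
        rw [map_zero, zero_div] at h1
        exact h4 h1
      · right; left
        refine mul_ne_zero (mul_ne_zero ?_ hb1) hb3
        rintro rfl
        rw [map_zero, zero_div] at h2
        exact (mul_ne_zero (hs0 β) h4) h2
      · right; right
        refine mul_ne_zero (mul_ne_zero ?_ hb1) hb2
        rintro rfl
        rw [map_zero, zero_div] at h3
        exact (mul_ne_zero (hs0 γ) h4) h3
    · apply hιi
      have hδ : algebraMap k₁ k (γ - β) ≠ 0 := by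
        rw [ne_eq, map_eq_zero]
        exact sub_ne_zero.2 hne.symm
      have hδ' : algebraMap k₁ k (β - γ) = - algebraMap k₁ k (γ - β) := by
        rw [← map_neg, neg_sub]
      have h5 : algebraMap k₁ k (γ - β) * u ^ 2 = ι (P β) * (s β * v) ^ 2 - ι (P γ) * (s γ * w) ^ 2 := by
        rw [h, hPs β, hPs γ, hδ']
        field_simp
        ring
      rw [h1, h2, h3] at h5
      simp only [map_mul ι, map_pow ι, map_sub ι, hιC]
      field_simp at h5
      linear_combination h5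
  -- the product
  obtain ⟨q, hq⟩ := hprod
  have ht0 : t₀ ≠ 0 := by
    rw [← hιX]
    exact hι0 X X_ne_zero
  have hq0 : q ≠ 0 := by
    rintro rfl
    have h1 : ∏ m, c (e m) ≠ 0 := Finset.prod_ne_zero_iff.2 fun m _ => hc0 _
    rw [hq] at h1
    simp at h1
  obtain ⟨a, b, hb, hab⟩ := hfrac ((∏ m, s (e m)) / q)
  have ha : a ≠ 0 := by
    rintro rfl
    rw [map_zero, zero_div] at hab
    have h1 : ∏ m, s (e m) ≠ 0 := Finset.prod_ne_zero_iff.2 fun m _ => hs0 _
    exact (div_ne_zero h1 hq0) hab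
  have hprod2 : (∏ m, P (e m)) * a ^ 2 = X * b ^ 2 := by
    apply hιi
    have hb' := hι0 _ hb
    have h1 : (∏ m, ι (P (e m))) * (∏ m, s (e m)) ^ 2 = t₀ * q ^ 2 := by
      rw [← hq, ← Finset.prod_pow, ← Finset.prod_mul_distrib]
      exact Finset.prod_congr rfl fun m _ => (hPs (e m)).symm
    have h2 : ∏ m, s (e m) = ι a / ι b * q := by
      rw [← hab]
      field_simp
    rw [h2] at h1
    rw [map_mul, map_pow, map_mul, map_pow, hιX, map_prod]
    have h3 : (∏ m, ι (P (e m))) * ι a ^ 2 * q ^ 2 = t₀ * ι b ^ 2 * q ^ 2 := by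
      field_simp at h1
      linear_combination q ^ 2 * h1
    exact mul_right_cancel₀ (pow_ne_zero 2 hq0) h3
  have hS' : Star k₁ := fun κ _ _ hfin a b l h1 h2 h3 => hS κ hfin a b l h1 h2 h3
  obtain ⟨i, hi⟩ := main hS' hsq hP0 hconics he hK ha hb hprod2
  refine ⟨i, fun l l' hl hl' => ?_⟩
  obtain ⟨γ, hγ, z, hz⟩ := hi l l' hl hl'
  refine ⟨ι (P (e l)) * s (e l) * s (e l') * algebraMap k₁ k z, ?_⟩
  have h1 : algebraMap k₁ k ((e i - e l) * (e i - e l')) * algebraMap k₁ k γ =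
      algebraMap k₁ k z * algebraMap k₁ k z := by
    rw [← map_mul, hz, map_mul]
  rw [hPs (e l), hPs (e l'), hγ, map_mul, hιC]
  linear_combination (ι (P (e l))) ^ 2 * s (e l) ^ 2 * s (e l') ^ 2 * h1

theorem pol : Pool.Agent.Zk12.GT.S_POL := fun k₁ k _ _ _ _ hS t₀ ht htop K _ e he hK _ c hc0 hprod
    hcon => pol' k₁ k hS t₀ ht htop K e he hK c hc0 hprod hcon

end Pool.Agent.Zk26.GT
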