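import Mathlib
import Pool.Agent.Zk12.GT.Fin
import Pool.Agent.Zk26.GT.Pol
import Pool.Agent.Zk95.FG.All
import Pool.Agent.Zk47.GT.Sym
import Pool.Agent.Zk95.GT.Star

/-!
# Birational sections of the curves `t_0 y² = ∏ (x - e_i)` over `ℚ(t_0, …, t_n)`: the assembly without the
condition on the cross ratios (`Pool.Agent.Zk12.GT.gt_of` with the part `Pool.Agent.Zk26.GT.pol'`)
-/

set_option autoImplicit false
set_option linter.all false

open Polynomial IntermediateField

namespace Pool.Agent.Zk26.GT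

open Pool.Agent.TH954 Pool.Agent.Zk12.FG Pool.Agent.Zk12.GT

attribute [-instance] DivisionRing.toRatAlgebra SubfieldClass.instSMulRat
attribute [local instance 1] DivisionRing.toRatAlgebra

/-- **the theorem, without the condition on the cross ratios, from its parts** -/
theorem gt_of' (hOBS : S_OBS) (hKOE : S_KOEP) (hLOC : S_LOCV) (hSYM : S_SYM)
    (hSTAR : S_STAR) (n : ℕ) (k₁ k F Ω B : Type) [Field k₁] [Field k] [Field F] [Field Ω] [Field B]
    [Algebra ℚ k₁] [Algebra k₁ k] [Algebra k F] [Algebra F Ω] [Algebra k Ω] [Algebra k B]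
    [IsScalarTower k F Ω] [IsAlgClosure F Ω] [IsAlgClosure k B] (t : Fin n → k₁)
    (ht1 : AlgebraicIndependent ℚ t) (ht2 : IntermediateField.adjoin ℚ (Set.range t) = ⊤) (t₀ : k)
    (ht3 : Transcendental k₁ t₀) (ht4 : IntermediateField.adjoin k₁ {t₀} = ⊤)
    {K : Type} [Fintype K] (e : K → k₁) (he : Function.Injective e)
    (hev : Even (Fintype.card K)) (hPr : ProgressionsK e)
    (x y : F) (hx : Transcendental k x)
    (hF : Algebra.IsAlgebraic (IntermediateField.adjoin k {x}) F)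
    (hxy : algebraMap k F t₀ * y ^ 2 = ∏ i, (x - algebraMap k F (algebraMap k₁ k (e i))))
    (s : GalSection k F Ω B) :
    ∃ i, ∃ O : ValuationSubring F, (x - algebraMap k F (algebraMap k₁ k (e i)))⁻¹ ∉ O ∧
      s.ArisesFrom O ∧ ∀ O' : ValuationSubring F, s.ArisesFrom O' → O' = O := by
  classical
  haveI : CharZero k₁ := algebraRat.charZero k₁
  haveI : CharZero k := charZero_of_injective_algebraMap (algebraMap k₁ k).injective
  haveI : CharZero F := charZero_of_injective_algebraMap (algebraMap k F).injective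
  haveI : CharZero Ω := charZero_of_injective_algebraMap (algebraMap F Ω).injective
  letI : Algebra ℚ k := ((algebraMap k₁ k).comp (algebraMap ℚ k₁)).toAlgebra
  haveI : IsScalarTower ℚ k₁ k := IsScalarTower.of_algebraMap_eq fun _ => rfl
  have hne : ∀ c : k, x - algebraMap k F c ≠ 0 := by
    intro c h
    apply hx
    rw [sub_eq_zero.1 h]
    exact isAlgebraic_algebraMap c
  obtain ⟨c, hc0, hcb, hcr⟩ := hSYM k F Ω B s x (fun c h => hne c (sub_eq_zero.2 h))
  choose b hb1 hb2 using hcb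
  have hb0 : ∀ β, b β ≠ 0 := by
    intro β h
    have h1 := hb2 β
    rw [h, zero_pow two_ne_zero, mul_zero, _root_.map_eq_zero] at h1
    exact hne β h1
  -- the product of the classes
  have hprod : ∃ q : k, ∏ m, c (algebraMap k₁ k (e m)) = t₀ * q ^ 2 := by
    have ht₀ : t₀ ≠ 0 := by
      rintro rfl
      exact ht3 isAlgebraic_zero
    have hprodb : ∏ m, b (algebraMap k₁ k (e m)) ≠ 0 := Finset.prod_ne_zero_iff.2 fun m _ => hb0 _
    have h1 := congrArg (algebraMap F Ω) hxy
    rw [map_mul, map_prod, map_pow] at h1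
    rw [Finset.prod_congr rfl fun m _ => hb2 (algebraMap k₁ k (e m)), Finset.prod_mul_distrib,
      Finset.prod_pow, ← map_prod, ← IsScalarTower.algebraMap_apply] at h1
    have hw : ∀ g, s.s g (algebraMap F Ω y / ∏ m, b (algebraMap k₁ k (e m))) =
        algebraMap F Ω y / ∏ m, b (algebraMap k₁ k (e m)) := by
      intro g
      rw [map_div₀, map_prod, (s.s g).commutes]
      congr 1
      exact Finset.prod_congr rfl fun m _ => hb1 _ g
    have ht₀Ω : algebraMap k Ω t₀ ≠ 0 := (_root_.map_ne_zero _).2 ht₀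
    obtain ⟨d, hd⟩ := fixed_sq s hw (c := (∏ m, c (algebraMap k₁ k (e m))) / t₀) (by
      rw [div_pow, map_div₀, div_eq_div_iff (pow_ne_zero 2 hprodb) ht₀Ω, mul_comm, h1])
    refine ⟨d, ?_⟩
    rw [← hd]
    field_simp
  obtain ⟨i, hi⟩ := pol' k₁ k (hSTAR n k₁ t ⟨ht1, ht2⟩) t₀ ht3 ht4 K e he hev
    (fun β => c (algebraMap k₁ k β)) (fun β => hc0 _) hprod (fun β γ hβγ => by
      obtain ⟨u, v, w, h1, h2⟩ := hcr (algebraMap k₁ k β) (algebraMap k₁ k γ)
        (fun h => hβγ ((algebraMap k₁ k).injective h))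
      refine ⟨u, v, w, h1, ?_⟩
      rw [map_sub, map_sub]
      exact h2)
  obtain ⟨l, z, δ, hδ, hl, hAP⟩ := hPr i
  obtain ⟨O, h1, h2, h3⟩ := att_geo hOBS hKOE hLOC (n + 1) k F Ω B
    (Fin.cons t₀ (fun i => algebraMap k₁ k (t i))) (ratFn_cons ⟨ht1, ht2⟩ ht3 ht4) s x hx hF
    (algebraMap k₁ k (e i)) (fun j => algebraMap k₁ k (e (l j)))
    (fun j h => hl j (he ((algebraMap k₁ k).injective h))) (algebraMap k₁ k z)
    (algebraMap k₁ k δ) ((_root_.map_ne_zero _).2 hδ) (fun j => by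
      rw [← map_sub, ← map_inv₀, hAP j]
      simp only [map_add, map_mul, map_natCast]) (fun j j' => by
      obtain ⟨r, hr⟩ := hi (l j) (l j') (hl j) (hl j')
      refine ⟨b (algebraMap k₁ k (e (l j))) * b (algebraMap k₁ k (e (l j'))) *
        algebraMap k Ω r, fun g => ?_, ?_⟩
      · rw [map_mul, map_mul, hb1, hb1, IsScalarTower.algebraMap_apply k F Ω, (s.s g).commutes]
      · rw [map_mul, map_mul, hb2, hb2, ← IsScalarTower.algebraMap_apply, mul_pow, mul_pow,
          ← map_pow, pow_two r, ← hr]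
        simp only [map_mul, map_sub]
        ring)
  exact ⟨i, O, h1, h2, h3⟩

/-- **the theorem** -/
theorem generic (n : ℕ) (k₁ k F Ω B : Type) [Field k₁] [Field k] [Field F] [Field Ω] [Field B]
    [Algebra ℚ k₁] [Algebra k₁ k] [Algebra k F] [Algebra F Ω] [Algebra k Ω] [Algebra k B]
    [IsScalarTower k F Ω] [IsAlgClosure F Ω] [IsAlgClosure k B] (t : Fin n → k₁)
    (ht1 : AlgebraicIndependent ℚ t) (ht2 : IntermediateField.adjoin ℚ (Set.range t) = ⊤) (t₀ : k)
    (ht3 : Transcendental k₁ t₀) (ht4 : IntermediateField.adjoin k₁ {t₀} = ⊤)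
    {K : Type} [Fintype K] (e : K → k₁) (he : Function.Injective e)
    (hev : Even (Fintype.card K)) (hPr : ProgressionsK e)
    (x y : F) (hx : Transcendental k x)
    (hF : Algebra.IsAlgebraic (IntermediateField.adjoin k {x}) F)
    (hxy : algebraMap k F t₀ * y ^ 2 = ∏ i, (x - algebraMap k F (algebraMap k₁ k (e i))))
    (s : GalSection k F Ω B) :
    ∃ i, ∃ O : ValuationSubring F, (x - algebraMap k F (algebraMap k₁ k (e i)))⁻¹ ∉ O ∧
      s.ArisesFrom O ∧ ∀ O' : ValuationSubring F, s.ArisesFrom O' → O' = O :=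
  gt_of' Pool.Agent.Zk95.FG.obs Pool.Agent.Zk95.FG.koep Pool.Agent.Zk95.FG.loc
    Pool.Agent.Zk47.GT.sym Pool.Agent.Zk95.GT.star n k₁ k F Ω B t ht1 ht2 t₀ ht3 ht4 e he hev hPr
    x y hx hF hxy s

end Pool.Agent.Zk26.GT
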